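import Pool.Agent.Run7.h580.S11

/-!
The zero-fiber ring of every irreducible quaternionic reflection group of rank two which is not a
complex reflection group and whose complexification is imprimitive has a quotient ring of
dimension `(g + 1) ^ 2`. Imprimitive groups of rank two have imprimitive complexification.
-/

namespace Pool.Agent.Results.MP_97ea17_al.ImprimitiveComplexification

open QRefl

/-- Let `W` be an irreducible quaternionic reflection group of rank `2`, not conjugate to a group
of complex matrices, whose complexification is imprimitive. Then its zero-fiber ring has a quotient
ring of complex dimension `(g + 1) ^ 2`. -/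
theorem result (W : Subgroup (QMat 2)ˣ) (hW : IsReflectionGroup W) (hirr : IsIrreducible W)
    (hnc : ¬ IsComplex W) (himp : HasImprimitiveComplexification W) :
    ∃ J : Ideal (ZeroFiberRing W),
      Module.finrank ℂ (ZeroFiberRing W ⧸ J) = (gNumber W + 1) ^ 2 :=
  Run7.h580.complexImprimitive_rank_two W hW hirr hnc himp

end Pool.Agent.Results.MP_97ea17_al.ImprimitiveComplexification
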